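import Pool.Agent.TH100.Pisot.Few
import Pool.Agent.TH100.Pisot.Pow

/-!
# The Pisot substitution conjecture after boundedly many letter changes

Let `M` be a unimodular irreducible Pisot matrix. There is a number `L`, depending only on `M`,
such that every composition of `n` substitutions with incidence matrix `M`, `n` large (for instance
every large power `σ ^ n` of a substitution `σ` with incidence matrix `M`, the list `σ, ..., σ`), can
be changed in at most `L` letters of every image, without changing the incidence matrix, so that
the new substitution satisfies the Pisot substitution conjecture: its system is semi-conjugate to a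
minimal toral translation (continuous surjection, exactly one preimage outside a null set).

Built on the library `Pool/Agent/H812R2/PI` (helper812 and others) and on
`Pool/Agent/H811R3/PS/TPK.lean` (helper267).
-/

set_option autoImplicit false

namespace Pool.Agent.Results.MP_e732b0_an.FewLetterChanges

open Pool.Agent.H812R2.PI Pool.Agent.TH100.Pisot

theorem result {m : ℕ} (M : Matrix (Fin (m+1)) (Fin (m+1)) ℤ) (hM : PisotMat M) :
    ∃ L n₀ : ℕ, ∀ l : List (Fin (m+1) → List (Fin (m+1))), (∀ τ ∈ l, inc τ = M) →
      n₀ ≤ l.length →
        ∃ S : Fin (m+1) → List (Fin (m+1)), inc S = M ^ l.length ∧ PisotMat (inc S) ∧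
          (∀ a, (S a).length = (compList l a).length ∧
            ((S a).zip (compList l a)).countP (fun p => p.1 ≠ p.2) ≤ L) ∧
          SemiConjToral S := by
  by_cases hnn : ∀ i j, 0 ≤ M i j
  · obtain ⟨L, n₀, h⟩ := few_changes M hnn hM
    refine ⟨L, n₀ + 1, fun l hl hlen => ?_⟩
    obtain ⟨S, h1, h2, h3⟩ := h l hl (by omega)
    refine ⟨S, h1, ?_, h2, h3⟩
    rw [h1]
    exact pisotMat_pow M hnn hM _ (by omega)
  · refine ⟨0, 1, fun l hl hlen => absurd ?_ hnn⟩
    obtain ⟨τ, hτ⟩ := List.exists_mem_of_length_pos hlen
    intro i j
    rw [← hl τ hτ]
    simp [inc]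

end Pool.Agent.Results.MP_e732b0_an.FewLetterChanges
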